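import Pool.Agent.DIS.Simul

/-!
# MP_cb5a96_an: simultaneous distortion of finitely many norms
-/

namespace Pool.Agent.Results.MP_cb5a96_an.SimultaneousDistortion

open Pool.Agent.DIS

/-- Let `X` be an infinite-dimensional real Banach space whose norm is `lam`-distortable, let
`N 0, …, N (k - 1)` be equivalent norms on `X`, `k ≥ 1`, and let `1 < μ`, `μ ^ (2 * k) < lam`.
Then there are a closed infinite-dimensional subspace `Z` and one equivalent norm `P` on `X`
which distorts every `N i` on `Z` by the factor `μ`. -/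
theorem result (X : Type) [NormedAddCommGroup X] [NormedSpace ℝ X] [CompleteSpace X]
    (hX : ¬ FiniteDimensional ℝ X) (lam : ℝ)
    (h : ∃ B : Seminorm ℝ X, EqvNorm B ∧ Distorts B (normSeminorm ℝ X) lam ⊤)
    (k : ℕ) (hk : 1 ≤ k) (N : Fin k → Seminorm ℝ X) (hN : ∀ i, EqvNorm (N i))
    (μ : ℝ) (hμ : 1 < μ) (hμl : μ ^ (2 * k) < lam) :
    ∃ Z : Submodule ℝ X, Big Z ∧ ∃ P : Seminorm ℝ X, EqvNorm P ∧
      ∀ i, Distorts P (N i) μ Z := by
  obtain ⟨B, hB, hd⟩ := h
  refine simultaneous ⟨isClosed_univ, fun hfin => hX ?_⟩ hB hd hk N hN hμ hμl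
  exact (Submodule.topEquiv (R := ℝ) (M := X)).finiteDimensional

end Pool.Agent.Results.MP_cb5a96_an.SimultaneousDistortion
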